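import Mathlib
import Pool.Agent.H.MP_9caa86_co.C

set_option autoImplicit false

namespace Pool.Agent.Results.MP_9caa86_co.Quad

open Set Pool.Agent.H.MP_9caa86_co

theorem result : ∀ n : ℕ, 32 ≤ n → ∃ E : Fin n → Fin n → Prop, BipDAG E ∧
    (∀ v, ∃ u, E u v ∨ E v u) ∧ (∃ D : Drawing E, ∀ u v, D.len u v = 1) ∧
    ∀ (D : Drawing E) (x0 x1 y0 y1 : ℝ),
      (∀ u v, E u v → chain (D.len u v) (D.pt u v) ⊆ Icc x0 x1 ×ˢ Icc y0 y1) →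
      (n : ℝ) / 16 ≤ x1 - x0 ∧ (n : ℝ) / 16 ≤ y1 - y0 ∧
        (n : ℝ) ^ 2 / 256 ≤ (x1 - x0) * (y1 - y0) :=
  final

end Pool.Agent.Results.MP_9caa86_co.Quad
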